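import Pool.Agent.helper70.TW.SpecE

set_option autoImplicit false

namespace Pool.Agent.TW

open Complex
open Pool.Agent.ZT (cmf cmA cmI lamA muA hm Sqf)

theorem FMM : FMM_stmt := by
  intro c hc
  have hv : ∀ m : ℕ, m ≠ 0 → FM c m = m.factorization.prod c := fun m hm => by simp [FM, hm]
  refine ⟨⟨?_, ?_⟩, ?_, ?_, ?_⟩
  · rw [hv 1 one_ne_zero, Nat.factorization_one, Finsupp.prod_zero_index]
  · intro m n hmn
    rcases eq_or_ne m 0 with rfl | hm
    · rw [zero_mul, ArithmeticFunction.map_zero, zero_mul]
    rcases eq_or_ne n 0 with rfl | hn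
    · rw [mul_zero, ArithmeticFunction.map_zero, mul_zero]
    rw [hv _ (mul_ne_zero hm hn), hv m hm, hv n hn, Nat.factorization_mul_of_coprime hmn,
      Finsupp.prod_add_index_of_disjoint]
    rw [Nat.support_factorization, Nat.support_factorization]
    exact hmn.disjoint_primeFactors
  · intro p k hp
    rw [hv _ (pow_ne_zero k hp.ne_zero), hp.factorization_pow, Finsupp.prod_single_index (hc p)]
  · intro m hm
    have hm0 : m ≠ 0 := by
      rintro rfl
      exact hm (ArithmeticFunction.map_zero)
    refine ⟨hm0, fun p => ?_⟩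
    by_cases hp : p ∈ m.factorization.support
    · rw [hv m hm0, Finsupp.prod, Finset.prod_ne_zero_iff] at hm
      exact hm p hp
    · rw [Finsupp.notMem_support_iff.1 hp, hc p]
      exact one_ne_zero
  · intro m h
    rcases eq_or_ne m 0 with rfl | hm
    · rw [ArithmeticFunction.map_zero, norm_zero]
      exact zero_le_one
    · rw [hv m hm, Finsupp.prod, norm_prod]
      exact Finset.prod_le_one (fun i _ => norm_nonneg _) (fun i _ => h i _)

end Pool.Agent.TW
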