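import Pool.Agent.helper70.TW.SpecE

set_option autoImplicit false

namespace Pool.Agent.TW

open Complex
open Pool.Agent.ZT (cmf cmA cmI lamA muA hm Sqf)

theorem PWR_root (k m : ℕ) (hm : m ≠ 0) (h : ∀ p : ℕ, k ∣ m.factorization p) : ∃ u : ℕ, u ≠ 0 ∧ m = u ^ k := by
  refine ⟨m.factorization.prod fun p a => p ^ (a / k), ?_, ?_⟩
  · rw [Finsupp.prod, Finset.prod_ne_zero_iff]
    intro p hp
    exact pow_ne_zero _ (Nat.prime_of_mem_primeFactors (by rwa [Nat.support_factorization] at hp)).ne_zero
  · rw [Finsupp.prod, ← Finset.prod_pow]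
    conv_lhs => rw [← Nat.prod_factorization_pow_eq_self hm]
    rw [Finsupp.prod]
    refine Finset.prod_congr rfl fun p _ => ?_
    rw [← pow_mul, Nat.div_mul_cancel (h p)]

theorem PWR (hFMM : FMM_stmt) : PWR_stmt := by
  intro k hk
  have hA := hFMM (fun _ a => if k ∣ a then (1 : ℂ) else 0) (fun _ => by simp)
  have hM := hFMM (fun _ a => if a = 0 then (1 : ℂ) else if a = k then -1 else 0) (fun _ => by simp)
  obtain ⟨hA1, hA2, hA3, hA4⟩ := hA
  obtain ⟨hM1, hM2, hM3, hM4⟩ := hM
  refine ⟨hA1, hM1, fun m => ⟨hA4 m ?_, hM4 m ?_⟩, ?_, ?_⟩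
  · intro p a
    split_ifs <;> simp
  · intro p a
    split_ifs <;> simp
  · intro m h
    rcases h with h | h
    · obtain ⟨hm, hp⟩ := hA3 m h
      refine PWR_root k m hm fun p => ?_
      by_contra hn
      exact hp p (if_neg hn)
    · obtain ⟨hm, hp⟩ := hM3 m h
      refine PWR_root k m hm fun p => ?_
      by_contra hn
      refine hp p ?_
      have h1 : m.factorization p ≠ 0 := fun e => hn (by rw [e]; exact dvd_zero k)
      have h2 : m.factorization p ≠ k := fun e => hn (by rw [e])
      simp only [if_neg h1, if_neg h2]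
  · intro p hp
    constructor
    · ext n
      rw [mul_sub, mul_one, map_sub, PowerSeries.coeff_mul_X_pow', lps, PowerSeries.coeff_mk,
        PowerSeries.coeff_mk, PowerSeries.coeff_one, pwA, hA2 p n hp, hA2 p (n - k) hp]
      by_cases hn : k ≤ n
      · rw [if_pos hn, if_neg (by omega : n ≠ 0)]
        have hd : k ∣ n - k ↔ k ∣ n := by
          rw [Nat.dvd_sub_self_right]
          constructor
          · rintro (h | h)
            · exact h
            · have : n = k := by omega
              rw [this]
          · intro h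
            exact Or.inl h
        simp only [hd, sub_self]
      · rw [if_neg hn, sub_zero]
        rcases Nat.eq_zero_or_pos n with h0 | h0
        · rw [h0]
          simp
        · rw [if_neg (fun h => hn (Nat.le_of_dvd h0 h)), if_neg (by omega : n ≠ 0)]
    · ext n
      rw [map_sub, PowerSeries.coeff_X_pow, lps, PowerSeries.coeff_mk, PowerSeries.coeff_one, pwM, hM2 p n hp]
      by_cases h0 : n = 0
      · rw [if_pos h0, if_pos h0, if_neg (by omega : n ≠ k), sub_zero]
      · rw [if_neg h0, if_neg h0]
        by_cases h1 : n = k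
        · rw [if_pos h1, if_pos h1]
          norm_num
        · rw [if_neg h1, if_neg h1, sub_zero]

end Pool.Agent.TW
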